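import Pool.Agent.U365.POW.J
import Pool.Agent.Results.MP_6f1c57_nt.MultiplicativeValues

/-!
# The height inequality with proximity function for all algebraic points of height near `s(m)`, `m - φ(m)` or `α m + β f(m)`

For a curve which is finite over the `t`-line, divisors above `q ≥ 3` rational points, `r ≥ 2` and `0 ≤ κ ≤ q`, let `s(m)` be the
sum of the proper divisors of `m`, let `G` be a function with steps bounded below by a positive constant and growth at most
`v ^ d`, `σ ≥ 0` and `E = d e / (r + 1) + σ < 1`, where `e < r + 1` is explicit. For a set of `m` of lower density at least `1 - E`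
the inequality `m_S(D, P) + (degree - κ) h(x) ≤ d(L) + ∑_{p ∈ S} log p - C₀` holds for ALL algebraic numbers `x` of degree `r` with
`|H(x) ^ (r (r + 1)) - G (s(m))| ≤ s(m) ^ σ`, ALL points `P` of the curve above `x`, over any number field `L`, and ALL finite sets
`S` of primes; and the same holds for `m - φ(m)`. More precisely this holds for almost all `m` with a divisor `≥ m ^ (E + ρ)` which
is a prime or the product of two different primes, and for the values `g = α m + β f(m)` of multiplicative functions with
`f p = p + c` at the primes, uniformly in `|α|, |β| ≤ N ^ δ` and with a power saving in the number of the exceptional `m`.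

Proof. The number of the exceptional algebraic numbers has a power saving (starting theorem). Let `m = k v p` with large primes
`p ≠ v`. Then `g = A v p + B (v + p) + B c`, `A = α k + β f(k)`, `B = β c f(k)`, and so `(A v + B) (A p + B) = A g + B² - A B c`: for
given `g`, `k`, `α`, `β` there are only `N^o(1)` possibilities for `p` and `v`.

If the exponent `e` is smaller than `1/2`, no divisor is needed: the property holds for almost all `m` (for all `m ≤ N` but at
most `N / (log N) ^ A`, for every `A`), for all `α ≠ 0`, `β`. Here we use the divisors `D` of `m` without small prime factors: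
`α m` is congruent to `g` modulo `f(D)`; if the size of all such `D` is inconvenient, then `m = R D` where the prime factors of
`D` are so large that `D` lies in a short interval which is given by `R` and `g`.
-/

set_option autoImplicit false

namespace Pool.Agent.Results.MP_6f1c57_nt.AliquotValues

open Polynomial IsDedekindDomain NumberField
open ProximityAllCurves (height coord proximity logDisc degree alpha exponent exceptional)
open ProximityWindows (Val Bad)
open Pool.Agent.U365.POW (Law law_set law_mono)
open Pool.Agent.N733.TG (Expanding)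
open Pool.Agent.Results.MP_6f1c57_nt.MultiplicativeValues (Holds)

/-- The inequality (`Holds`, with the constant `-C₀`) is true for ALL algebraic numbers `x` of degree `r` (with irreducible
integral polynomial `g` and height `H = exp (height g)`) with `|H ^ (r (r + 1)) - G v| ≤ v ^ σ`. -/
def Near {A : Type} [CommRing A] [Algebra ℚ A] [Algebra ℚ[X] A] {q : ℕ} (r : ℕ) (u : Fin q → ℕ)
    (y : ∀ j, Fin (u j + 1) → A) (κ C₀ : ℝ) (G : ℕ → ℝ) (σ : ℝ) (v : ℕ) : Prop :=
  ∀ (x : ℂ) (g : ℤ[X]), Irreducible g → g.natDegree = r → aeval x g = 0 →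
    |Real.exp (height g) ^ (r * (r + 1)) - G v| ≤ (v : ℝ) ^ σ → Holds u y κ C₀ g x

/-- **Theorem.** For `η > 0` there is `c ≥ 1` such that the following holds. Let `A` be a Dedekind domain, finite over `ℚ[t]` and
containing it, let `r ≥ 2`, let `a_1, …, a_q` be `q ≥ 3` distinct rational numbers, let `y_{j 0} = t - a_j, y_{j 1}, …` be
elements of the radical of the ideal `(t - a_j)` and `κ ≤ q`. (For `κ ≥ 0` the exponent `e = exponent (alpha r c η) r q κ` is
smaller than `r + 1`.) Let `G` have steps `≥ a > 0` and growth at most `v ^ d`, `σ ≥ 0`, and let `E = d max e 0 / (r + 1) + σ <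
1`. For all `C₀` the property `Near` holds for the values of similar functions as the aliquot sum with the exponent `E` (`Law`):
if this exponent is smaller than `1/2`, then (1) for ALL `α m + β f(m)` at almost all `m`, and so for `s(m)` and `m - φ(m)` for
almost all `m`; in general, (2) at almost all the `m` with a divisor `≥ m ^ (E + ρ)` which is a prime or the product of two
different primes, and for `s(m)` and `m - φ(m)` for a set of `m` of lower density at least `1 - (E)`. -/
theorem result : ∀ η : ℝ, 0 < η → ∃ c : ℝ, 1 ≤ c ∧
      ∀ (A : Type) [CommRing A] [IsDedekindDomain A] [Algebra ℚ A] [Algebra ℚ[X] A]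
        [IsScalarTower ℚ ℚ[X] A] [Module.Finite ℚ[X] A] [FaithfulSMul ℚ[X] A]
        (r q : ℕ), 2 ≤ r → 3 ≤ q → ∀ a : Fin q → ℚ, Function.Injective a →
      ∀ (u : Fin q → ℕ) (y : ∀ j, Fin (u j + 1) → A),
      (∀ j, y j 0 = coord A - algebraMap ℚ[X] A (C (a j))) →
      (∀ j i, y j i ∈ (Ideal.span {coord A - algebraMap ℚ[X] A (C (a j))}).radical) →
      ∀ κ : ℝ, κ ≤ q →
      (0 ≤ κ → exponent (alpha r c η) r q κ < r + 1) ∧
      ∀ (G : ℕ → ℝ) (d : ℝ), Expanding G d → ∀ σ : ℝ, 0 ≤ σ →
        d * (max (exponent (alpha r c η) r q κ) 0 / (r + 1)) + σ < 1 → ∀ C₀ : ℝ,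
          Law (d * (max (exponent (alpha r c η) r q κ) 0 / (r + 1)) + σ) (Near r u y κ C₀ G σ) := by
  intro η hη
  obtain ⟨c, hc, hmain⟩ := ProximityAllCurves.result η hη
  refine ⟨c, hc, fun A _ _ _ _ _ _ _ r q hr hq a ha u y hy0 hy κ hκ =>
    ⟨fun h0 => ProximityWindows.expo_lt hr hq hc h0, fun G d hG σ hσ h1 C₀ => ?_⟩⟩
  have h2 := law_set (Val u y r κ (-C₀)) (fun z => z) hG
    (s := max (exponent (alpha r c η) r q κ) 0 / (r + 1)) (κ := σ)
    (div_nonneg (le_max_right _ _) (by positivity)) hσ h1
    (fun ε hε => ProximityWindows.count u y hr κ (-C₀) _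
      (fun δ hδ => hmain A r q hr hq a ha u y hy0 hy κ (-C₀) δ hκ hδ) ε hε)
  have hm : ∀ v : ℕ, (∀ t : ℝ, |t - G v| ≤ (v : ℝ) ^ σ → t ∉ Val u y r κ (-C₀)) → Near r u y κ C₀ G σ v := by
    intro v hv x g hg hgr hgx hw
    by_contra h4
    unfold Holds at h4
    push Not at h4
    obtain ⟨L, hL, φ, S, hφ, hS, hlt⟩ := h4
    refine hv _ hw ⟨g, x, ⟨hg, hgr, hgx, L, hL, φ, S, hφ, hS, ?_⟩, rfl⟩
    linarith
  exact law_mono h2 hm

end Pool.Agent.Results.MP_6f1c57_nt.AliquotValues
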