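import Pool.Agent.U536.CF.F
import Pool.Agent.Results.MP_6f1c57_nt.MultiplicativeValues

/-!
# The height inequality with proximity function near integers with a large common factor with a value of a multiplicative function

Let `f` be a positive multiplicative function of at most polynomial growth such that `f p ≤ M p` for the large primes `p`,
with different values at different large primes; for example Euler's function or the sum of the divisors. Let `G` have
steps bounded below by a positive constant and growth at most `v^d`, for example `α v^d`. Let `b < 1` and `0 ≤ c < 2 b -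
1`. For all `m ≤ N` but `N exp (-(log N)^c)`, for EVERY integer `w ≥ exp ((log N)^b)` with `gcd(w, f(m)) ≥ w^ρ`, the
inequality `m_S(D, P) + (degree - κ) h(x) ≤ d(L) + ∑_{p ∈ S} log p - C₀` holds for ALL algebraic numbers `x` of degree `r`
(with irreducible integral polynomial `g` and height `H = exp (height g)`) with `|H ^ (r (r + 1)) - G w| ≤ w ^ σ`, ALL
points `P = φ` of the curve above `x` over any number field `L` and ALL finite sets `S` of primes, if `A` is a Dedekind
domain, finite over `ℚ[t]` and containing it, `r ≥ 2`, `a_1, …, a_q` are `q ≥ 3` distinct rational numbers, `y_{j 0} = t -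
a_j, y_{j 1}, …` are elements of the radical of the ideal `(t - a_j)`, `κ ≤ q`, `C₀` is real, `σ ≥ 0` and `d max e 0 / (r
+ 1) + σ < ρ ≤ 1`; here `e = exponent (alpha r c η) r q κ`, which is smaller than `r + 1` for `κ ≥ 0`, for a constant `c ≥
1` which depends only on `η > 0`. The integers `w` include all large divisors of `f(m)` and their multiples by small
integers; for Euler's function, the orders of the elements of the group of units modulo `m`.

Proof. Write `m = k u` with `u` squarefree and composed of primes larger than `N^(1/J)`, `J = (log N)^a`, and `k ≤ exp (4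
(log N)^a)`; this is possible for all `m ≤ N` but very few. If `v ∣ f(k) f(u)`, then `v = g v'` with `g ∣ f(k)` and `v' ∣
∏ f(p)`, and the number of such `u ≤ N / k` is at most `N / (k v')` times `(log N)^O(J)` times the number `τ_J(v')` of the
ordered factorizations of `v'` into `J` factors. The inequality `τ_J^q ≤ τ_K` for `K ≥ J^q` and Hölder's inequality bound
the sum over the sparse set of the exceptional `v`. The file `MultiplicativeValues` of the starting library treats the
integers `w = f(m)`, with `N / (log N)^U` exceptions.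
-/

set_option autoImplicit false

namespace Pool.Agent.Results.MP_6f1c57_nt.CommonFactors

open Polynomial IsDedekindDomain NumberField
open ProximityAllCurves (height coord proximity logDisc degree alpha exponent exceptional)
open ProximityWindows (Val Bad)
open Pool.Agent.N733.TG (LM Expanding lm_totient lm_sigma expanding_pow)
open Pool.Agent.U536.CF (Common common_windows common_of_dvd common_order)
open Pool.Agent.Results.MP_6f1c57_nt.MultiplicativeValues (Holds)

/-- **The height inequality with proximity function near integers with a large common factor with a value of a multiplicative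
function.** Let `f` be multiplicative and positive, of at most polynomial growth, with `f p ≤ M p` at the large primes,
and injective there. Let `G` have steps `≥ a > 0` and growth at most `v^d`. Let `b < 1` and `0 ≤ c < 2 b - 1`, `A` is a
Dedekind domain, finite over `ℚ[t]` and containing it, `r ≥ 2`, `a_1, …, a_q` are `q ≥ 3` distinct rational numbers, `y_{j
0} = t - a_j, y_{j 1}, …` are elements of the radical of the ideal `(t - a_j)`, `κ ≤ q`, `C₀` is real, `σ ≥ 0` and `d max
e 0 / (r + 1) + σ < ρ ≤ 1`; here `e = exponent (alpha r c η) r q κ`, which is smaller than `r + 1` for `κ ≥ 0`, for a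
constant `c ≥ 1` which depends only on `η > 0`. For all large `N`, for all `m ≤ N` but `N exp (-(log N)^c)`, for EVERY
integer `w ≥ exp ((log N)^b)` with `gcd(w, f(m)) ≥ w^ρ`, the inequality `m_S(D, P) + (degree - κ) h(x) ≤ d(L) + ∑_{p ∈ S}
log p - C₀` holds for ALL algebraic numbers `x` of degree `r` (with irreducible integral polynomial `g` and height `H =
exp (height g)`) with `|H ^ (r (r + 1)) - G w| ≤ w ^ σ`, ALL points `P = φ` of the curve above `x` over any number field
`L` and ALL finite sets `S` of primes. All divisors `w ≥ exp ((log N)^b)` of `f(m)` are such integers `w`, and for Euler's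
function the orders `≥ exp ((log N)^b)` of the units modulo `m`. Euler's function and the sum of the divisors are examples
of `f`, and `α v^d` with `α > 0`, `d ≥ 1` is an example of `G`. -/
theorem result :
    (∀ η : ℝ, 0 < η → ∃ C₁ : ℝ, 1 ≤ C₁ ∧
      ∀ (A : Type) [CommRing A] [IsDedekindDomain A] [Algebra ℚ A] [Algebra ℚ[X] A]
        [IsScalarTower ℚ ℚ[X] A] [Module.Finite ℚ[X] A] [FaithfulSMul ℚ[X] A]
        (r q : ℕ), 2 ≤ r → 3 ≤ q → ∀ a : Fin q → ℚ, Function.Injective a →
      ∀ (u : Fin q → ℕ) (y : ∀ j, Fin (u j + 1) → A),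
      (∀ j, y j 0 = coord A - algebraMap ℚ[X] A (C (a j))) →
      (∀ j i, y j i ∈ (Ideal.span {coord A - algebraMap ℚ[X] A (C (a j))}).radical) →
      ∀ κ : ℝ, κ ≤ q →
      (0 ≤ κ → exponent (alpha r C₁ η) r q κ < r + 1) ∧
      ∀ f : ℕ → ℕ, LM f → ∀ (G : ℕ → ℝ) (d : ℝ), Expanding G d → ∀ σ ρ b c : ℝ, 0 ≤ σ →
        d * (max (exponent (alpha r C₁ η) r q κ) 0 / (r + 1)) + σ < ρ → ρ ≤ 1 → b < 1 → 0 ≤ c → c < 2 * b - 1 →
        ∀ C₀ : ℝ, ∃ N₀ : ℕ, ∀ N : ℕ, N₀ ≤ N →
          ({m : ℕ | 1 ≤ m ∧ m ≤ N ∧ ¬ ∀ w : ℕ, Common f b ρ N m w → ∀ (x : ℂ) (g : ℤ[X]),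
            Irreducible g → g.natDegree = r → aeval x g = 0 →
            |Real.exp (height g) ^ (r * (r + 1)) - G w| ≤ (w : ℝ) ^ σ → Holds u y κ C₀ g x}.ncard : ℝ) ≤
          N * Real.exp (-(Real.log N ^ c))) ∧
    (LM Nat.totient ∧ LM (fun m => ∑ d ∈ m.divisors, d)) ∧
    (∀ α d : ℝ, 0 < α → 1 ≤ d → Expanding (fun v => α * (v : ℝ) ^ d) d) ∧
    (∀ (f : ℕ → ℕ) (b ρ : ℝ) (N m w : ℕ), ρ ≤ 1 → Real.exp (Real.log N ^ b) ≤ (w : ℝ) → w ∣ f m → Common f b ρ N m w) ∧
    ∀ (b ρ : ℝ) (N m : ℕ), ρ ≤ 1 → ∀ x : (ZMod m)ˣ, Real.exp (Real.log N ^ b) ≤ (orderOf x : ℝ) →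
      Common Nat.totient b ρ N m (orderOf x) := by
  refine ⟨?_, ⟨lm_totient, lm_sigma⟩, fun α d hα hd => expanding_pow hα hd, fun f b ρ N m w hρ hw hd => common_of_dvd hρ hw hd,
    fun b ρ N m hρ x hx => common_order hρ x hx⟩
  intro η hη
  obtain ⟨c, hc, hmain⟩ := ProximityAllCurves.result η hη
  refine ⟨c, hc, fun A _ _ _ _ _ _ _ r q hr hq a ha u y hy0 hy κ hκ =>
    ⟨fun h0 => ProximityWindows.expo_lt hr hq hc h0, fun f hf G d hG σ ρ b c' hσ h1 hρ hb hc' hcb C₀ => ?_⟩⟩
  obtain ⟨N₀, hN₀⟩ := common_windows (Val u y r κ (-C₀)) (fun z => z) hf hG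
    (s := max (exponent (alpha r c η) r q κ) 0 / (r + 1)) (κ := σ)
    (div_nonneg (le_max_right _ _) (by positivity)) hσ h1 hρ hb hc' hcb
    (fun ε hε => ProximityWindows.count u y hr κ (-C₀) _
      (fun δ hδ => hmain A r q hr hq a ha u y hy0 hy κ (-C₀) δ hκ hδ) ε hε)
  refine ⟨N₀, fun N hN => le_trans ?_ (hN₀ N hN)⟩
  have hfin : {m : ℕ | 1 ≤ m ∧ m ≤ N ∧ ∃ w : ℕ, Common f b ρ N m w ∧
      ∃ t ∈ Val u y r κ (-C₀), |t - G w| ≤ (w : ℝ) ^ σ}.Finite := by
    apply (Set.finite_Icc 1 N).subset
    intro m hm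
    exact ⟨hm.1, hm.2.1⟩
  have h2 : {m : ℕ | 1 ≤ m ∧ m ≤ N ∧ ¬ ∀ w : ℕ, Common f b ρ N m w → ∀ (x : ℂ) (g : ℤ[X]),
            Irreducible g → g.natDegree = r → aeval x g = 0 →
            |Real.exp (height g) ^ (r * (r + 1)) - G w| ≤ (w : ℝ) ^ σ → Holds u y κ C₀ g x} ⊆
      {m : ℕ | 1 ≤ m ∧ m ≤ N ∧ ∃ w : ℕ, Common f b ρ N m w ∧
        ∃ t ∈ Val u y r κ (-C₀), |t - G w| ≤ (w : ℝ) ^ σ} := by
    rintro m ⟨h2, h3, h4⟩
    unfold Holds at h4
    push Not at h4
    obtain ⟨w, hw0, x, g, hg, hgr, hgx, hw, L, hL, φ, S, hφ, hS, hlt⟩ := h4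
    refine ⟨h2, h3, w, hw0, _, ⟨g, x, ⟨hg, hgr, hgx, L, hL, φ, S, hφ, hS, ?_⟩, rfl⟩, hw⟩
    linarith
  exact_mod_cast Set.ncard_le_ncard h2 hfin

end Pool.Agent.Results.MP_6f1c57_nt.CommonFactors
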