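import Mathlib
import Pool.Agent.U47.QF.PrxD
import Pool.Agent.U47.QE.Final

/-!
# The height inequality with proximity function for the algebraic points of curves above quadratic
points of elliptic curves

Let `K` be a number field and `E : y² = x³ + a x + b` an elliptic curve over `K` of any rank.  We
prove that there is ONE set `Exc` of points of `E` of degree two over `K`, of density zero among all
the points of `E` of degree two over `K` (ordered by the height of `x`), such that for all quadratic
points `Q` outside of `Exc`, all number fields `k ⊇ K`, all coordinates `t = g(x)` over `K` on the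
`x`-line of `E`, all smooth projective curves `C` over `k` with a finite map `t` to this line, all
points `P` of `C` above `t(Q)` and all divisors `D` of `C`, the points of which are above any points
`β_j ∈ k` of the line

* `m_S(D, P) ≤ κ h(t(P)) + O(1)` for every finite set `S` of places (which contains the infinite
  ones) and every `κ > 0`;

* `m_S(D, P) + (h_K(P) + 2 h(t(P))) ≤ d(P) + κ h(t(P)) + O(1)`, that is the height inequality with the
  additional term `2 h(t(P))` on the left, if `t` is unramified outside of finitely many branch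
  points `α_j ∈ k` such that the points of `E` above them have degree at most five over `K`.  (This
  holds if the `α_j` have degree at most two over `K` or are branch points of `x : E → ℙ¹`.)  For
  example `C` can be `E` or any curve over `k` with such a finite map to `E`.

The points `P` have coordinates in any number field `L ⊇ k`, so they are of unbounded degree over
`ℚ`.  The curve `C` is given by the ring `A` of the functions with poles only above `t = ∞`, a
Dedekind domain which is finite over `k[t]`.  The divisor `D` is given by functions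
`y_{j 0} = t - β_j, y_{j 1}, …`, its points are the common zeros of the `y_{j i}`, with
multiplicities; the `y_{j i}` with `i > 0` are arbitrary, for `D` without multiple points they
generate with `y_{j 0}` the ideal of the points of `D` above `β_j`.  The number
`n_j = dim A / rad (t - α_j)` is the number of the geometric points of `C` above `α_j`; if `t` is
unramified outside of the `α_j`, then `h_K(P) = (∑_j (1 - n_j / N) - 2) h(t(P)) + O(√h)`, where `N`
is the degree of `t`.  Heights, proximity functions and logarithmic discriminants are absolute, as in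
the problem.

Proof.  The quadratic points `Q` of `E` with conjugate `Q'` and given `s = Q + Q'` correspond to the
points `l` of a line over `K` (the slope of the line through `Q`, `Q'` and `-s`).  For a polynomial
`p` over `K`, `p(x(Q)) p(x(Q'))` is a polynomial `R_s(l)`, so that `Q` is close to a zero of `p` only
if `l` is close to a zero of `R_s` or to `∞`.  By the starting library (project PC of `N753.DR`)
this is the case only for a set of `l` of density zero, which does not depend on `p`.  The
exceptional sets for all `s` and `p` are collected by a diagonal argument, and the `β_j` and the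
covers by norms.  The discriminants are those of `MP_9b9442_nt.CurvesOverEllipticCurves`.
-/

set_option autoImplicit false
set_option linter.unusedSectionVars false

namespace Pool.Agent.Results.MP_6f1c57_nt.CurvesAboveEllipticCurves

open Polynomial NumberField Height Module IsDedekindDomain

variable (K : Type) [Field K] [NumberField K]

/-- `(x, y)` is a point of degree two over `K` of the curve `y² = x³ + a x + b`, with coordinates
in the field `L` -/
structure IsQuadratic (a b : 𝓞 K) (L : Type) [Field L] [Algebra K L] (x y : L) : Prop where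
  equation : y ^ 2 = x ^ 3 + algebraMap K L a * x + algebraMap K L b
  degree : finrank K (IntermediateField.adjoin K {x, y}) = 2

/-- the absolute logarithmic height -/
noncomputable def height {L : Type} [Field L] [NumberField L] (x : L) : ℝ :=
  logHeight₁ x / finrank ℚ L

/-- the points of degree two over `K` of the curve `y² = x³ + a x + b` with `h(x) ≤ X`, as points
with coordinates in the algebraic closure of `K` -/
def points (a b : 𝓞 K) (X : ℝ) : Set (AlgebraicClosure K × AlgebraicClosure K) :=
  {p | ∃ (L : Type) (_ : Field L) (_ : NumberField L) (_ : Algebra K L)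
    (ι : L →ₐ[K] AlgebraicClosure K) (x y : L), finrank K L = 2 ∧
    IsQuadratic K a b L x y ∧ height x ≤ X ∧ p = (ι x, ι y)}

/-- the logarithmic discriminant `log |disc L| / [L : ℚ]` of a point with values in the field `L` -/
noncomputable def logDisc (L : Type) [Field L] [NumberField L] : ℝ :=
  Real.log |(discr L : ℝ)| / finrank ℚ L

/-- the point `α` of the line (of degree `≤ 1` over the number field `k`) has the property that the
points of the curve `y² = x³ + a x + b` with `g(x) = α`, where `g` is a fractional linear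
transformation, have degree at most five over `K` -/
def SmallDegree (a b : 𝓞 K) (g : Matrix (Fin 2) (Fin 2) K) (k : Type) [Field k] [Algebra K k]
    (α : k) : Prop :=
  ∀ (ι : k →ₐ[K] AlgebraicClosure K) (u v : AlgebraicClosure K),
    v ^ 2 = u ^ 3 + algebraMap K (AlgebraicClosure K) a * u + algebraMap K (AlgebraicClosure K) b →
    ι α * (algebraMap K (AlgebraicClosure K) (g 1 0) * u +
        algebraMap K (AlgebraicClosure K) (g 1 1)) =
      algebraMap K (AlgebraicClosure K) (g 0 0) * u + algebraMap K (AlgebraicClosure K) (g 0 1) →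
    finrank K (IntermediateField.adjoin K {u, v}) ≤ 5

/-- the function `t` on the curve with the ring of functions `A` -/
noncomputable def coord (k A : Type) [Field k] [CommRing A] [Algebra k[X] A] : A :=
  algebraMap k[X] A X

/-- the ideal of the reduced fibre over `c` -/
noncomputable def fibre (k A : Type) [Field k] [CommRing A] [Algebra k A] [Algebra k[X] A]
    (c : k) : Ideal A :=
  (Ideal.span {coord k A - algebraMap k A c}).radical

/-- `∑_j (1 - n_j / N)` for a curve, where `n_j = dim (A / rad (t - α_j))` is the number of the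
geometric points over `α_j` and `N` is the rank of `A` over `k[t]`. If `t` is unramified outside
of the fibres over the `α_j`, this is `2 + (deg K) / N`, where `K` is a canonical divisor of the
curve. -/
noncomputable def degree (k A : Type) [Field k] [CommRing A] [Algebra k A]
    [Algebra k[X] A] {q : ℕ} (α : Fin q → k) : ℝ :=
  ∑ j, (1 - (finrank k (A ⧸ fibre k A (α j)) : ℝ) / finrank k[X] A)

/-- `max (0, - log max_i c_i)` -/
noncomputable def minusLog {s : ℕ} (c : Fin (s + 1) → ℝ) : ℝ := max 0 (-Real.log (⨆ i, c i))

open Classical in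
/-- The proximity function `m_S(D, P)`: the sum over the infinite places `w` (with
`mult w = [L_w : ℝ]`) and the primes `v` above the primes of `S` of the local heights
`∑_j max (0, - log max_i |y_{j i}(P)|)`, divided by `[L : ℚ]`. The absolute values are normalised
so that the product formula holds: `|b|_v = N(v) ^ (- v(b))`. -/
noncomputable def proximity {k A : Type} [Field k] [CommRing A] [Algebra k A] (S : Finset ℕ)
    {n : ℕ} {u : Fin n → ℕ} (y : ∀ j, Fin (u j + 1) → A) {L : Type} [Field L] [NumberField L]
    [Algebra k L] (P : A →ₐ[k] L) : ℝ :=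
  ((∑ w : InfinitePlace L, (w.mult : ℝ) * ∑ j, minusLog (fun i => w (P (y j i)))) +
    ∑ᶠ v : HeightOneSpectrum (𝓞 L), if ∃ p ∈ S, (p : 𝓞 L) ∈ v.asIdeal then
      ∑ j, minusLog (fun i => FinitePlace.mk v (P (y j i))) else 0) / finrank ℚ L

open Pool.Agent.U47.QF in
/-- the proximity function is at most the sum of the local heights of the fibres -/
theorem proximity_le {k A : Type} [Field k] [CommRing A] [Algebra k A] [Algebra k[X] A]
    (S : Finset ℕ)
    (hS : ∀ p ∈ S, p.Prime) {n : ℕ} {u : Fin n → ℕ} (y : ∀ j, Fin (u j + 1) → A) (β : Fin n → k)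
    (hy : ∀ j, y j 0 = coord k A - algebraMap k A (β j)) {L : Type} [Field L] [NumberField L]
    [Algebra k L] (P : A →ₐ[k] L) (hP : ∀ j, P (coord k A) ≠ algebraMap k L (β j)) :
    proximity S y P * finrank ℚ L ≤ ∑ j, PS S (fun v : AbsoluteValue L ℝ =>
      max 0 (-Real.log (v (P (coord k A) - algebraMap k L (β j))))) := by
  classical
  have h0 : proximity S y P = PS S (fun v : AbsoluteValue L ℝ =>
      ∑ j, minusLog (fun i => v (P (y j i)))) / finrank ℚ L := rfl
  have hn : (0 : ℝ) < finrank ℚ L := by
    exact_mod_cast (finrank_pos : 0 < finrank ℚ L)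
  rw [h0, div_mul_cancel₀ _ hn.ne', ← PS_sum S hS]
  refine PS_mono S hS fun v _ => ?_
  refine Finset.sum_le_sum fun j _ => ?_
  unfold minusLog
  refine max_le_max le_rfl (neg_le_neg ?_)
  have h1 : P (y j 0) = P (coord k A) - algebraMap k L (β j) := by
    rw [hy j, map_sub, AlgHom.commutes]
  rw [← h1]
  refine Real.log_le_log (v.pos ?_) ?_
  · rw [h1]
    exact sub_ne_zero.2 (hP j)
  · exact le_ciSup (f := fun i => v (P (y j i))) (Set.finite_range _).bddAbove 0

open Pool.Agent.U47.QE Pool.Agent.U47.QF Pool.Agent.TH942 WeierstrassCurve in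
/-- **The height inequality for the algebraic points of curves above 100 percent of the quadratic
points of an elliptic curve.** There is one exceptional set for all number fields `k`, coordinates
`g`, curves, covers, divisors `D`, finite sets of places and all `κ`. The number of the quadratic
points with `h(x) ≤ X` is of the order of magnitude `exp (2 [K : ℚ] X)`. -/
theorem result (a b : 𝓞 K) (hab : 4 * (a : K) ^ 3 + 27 * (b : K) ^ 2 ≠ 0) :
    ∃ Exc : Set (AlgebraicClosure K × AlgebraicClosure K),
      -- the number of the quadratic points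
      (∃ c C X₀ : ℝ, 0 < c ∧ ∀ X : ℝ, X₀ ≤ X → (points K a b X).Finite ∧
        c * Real.exp (2 * finrank ℚ K * X) ≤ ((points K a b X).ncard : ℝ) ∧
        ((points K a b X).ncard : ℝ) ≤ C * Real.exp (2 * finrank ℚ K * X)) ∧
      -- the exceptional set has density zero
      (∀ δ : ℝ, 0 < δ → ∃ X₀ : ℝ, ∀ X : ℝ, X₀ ≤ X →
        ((Exc ∩ points K a b X).ncard : ℝ) ≤ δ * ((points K a b X).ncard : ℝ)) ∧
      -- all number fields, all coordinates on the line
      ∀ (k : Type) [Field k] [NumberField k] [Algebra K k] (g : Matrix (Fin 2) (Fin 2) K),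
        g.det ≠ 0 →
        -- all curves over the line
        ∀ (A : Type) [CommRing A] [IsDedekindDomain A] [Algebra k A] [Algebra k[X] A]
          [IsScalarTower k k[X] A] [Module.Finite k[X] A] [FaithfulSMul k[X] A],
        -- all divisors, all finite sets of places
        ∀ (n : ℕ) (β : Fin n → k) (u : Fin n → ℕ) (y : ∀ j, Fin (u j + 1) → A),
          (∀ j, y j 0 = coord k A - algebraMap k A (β j)) →
        ∀ (S : Finset ℕ), (∀ p ∈ S, p.Prime) → ∀ κ : ℝ, 0 < κ →
        -- the proximity function
        (∃ c : ℝ, ∀ (L : Type) [Field L] [NumberField L] [Algebra K L] [Algebra k L]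
          [IsScalarTower K k L] (ι : L →ₐ[K] AlgebraicClosure K) (x z : L),
          IsQuadratic K a b L x z → (ι x, ι z) ∉ Exc →
          algebraMap K L (g 1 0) * x + algebraMap K L (g 1 1) ≠ 0 →
          ∀ P : A →ₐ[k] L,
            P (coord k A) = (algebraMap K L (g 0 0) * x + algebraMap K L (g 0 1)) /
              (algebraMap K L (g 1 0) * x + algebraMap K L (g 1 1)) →
            (∀ j, P (coord k A) ≠ algebraMap k L (β j)) →
            proximity S y P ≤ κ * height (P (coord k A)) + c) ∧
        -- the height inequality, for all branch points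
        ∀ (q : ℕ) (α : Fin q → k), 0 < q → Function.Injective α →
        (∀ j, SmallDegree K a b g k (α j)) →
        ∃ c : ℝ, ∀ (L : Type) [Field L] [NumberField L] [Algebra K L] [Algebra k L]
          [IsScalarTower K k L] (ι : L →ₐ[K] AlgebraicClosure K) (x z : L),
          IsQuadratic K a b L x z → (ι x, ι z) ∉ Exc →
          algebraMap K L (g 1 0) * x + algebraMap K L (g 1 1) ≠ 0 →
          -- all points `P` of the curve above `g(x)`
          ∀ P : A →ₐ[k] L,
            P (coord k A) = (algebraMap K L (g 0 0) * x + algebraMap K L (g 0 1)) /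
              (algebraMap K L (g 1 0) * x + algebraMap K L (g 1 1)) →
            (∀ j, P (coord k A) ≠ algebraMap k L (β j)) →
            proximity S y P + degree k A α * height (P (coord k A)) ≤
              logDisc L + κ * height (P (coord k A)) + c := by
  classical
  obtain ⟨E1, hE1, -, hE3⟩ := main a b hab
  obtain ⟨E2, hE2, hE4⟩ := mainP a b hab
  obtain ⟨E, hE⟩ : ∃ E, E = E1 ∪ E2 := ⟨_, rfl⟩
  have hEn : Ngl (QQ (a : K) (b : K)) E := by
    rw [hE]
    exact ngl_union hE1 hE2
  obtain ⟨C, hC, hfin⟩ := qq_fin a b hab (cntU K)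
  obtain ⟨c, X₀, hc, hlow⟩ := qq_low a b hab (cntU K) (cntL K)
  obtain ⟨d, hd⟩ : ∃ d : ℝ, d = finrank ℚ K := ⟨_, rfl⟩
  have hd1 : 1 ≤ d := by
    rw [hd]
    exact_mod_cast (finrank_pos : 0 < finrank ℚ K)
  let tp : EP (a : K) (b : K) (AlgebraicClosure K) → AlgebraicClosure K × AlgebraicClosure K :=
    fun P => match P with
      | .zero => (0, 0)
      | .some x y _ => (x, y)
  have hD : ∀ F : Type, ∀ [Field F] [Algebra K F],
      4 * (algebraMap K F (a : K)) ^ 3 + 27 * (algebraMap K F (b : K)) ^ 2 ≠ 0 := fun F _ _ =>
    disc_ne hab F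
  have hne : ∀ X P, P ∈ QQ (a : K) (b : K) X → ∃ x y h, P = Affine.Point.some x y h := by
    rintro X P ⟨s, L, _, _, _, ι, σ, P', h1, h2, h3⟩
    match P', h1, h3 with
    | 0, h1, _ =>
      exfalso
      apply h1.ne
      rw [map_zero]
    | .some x y h, _, h3 =>
      rw [← h3, mp_some]
      exact ⟨_, _, _, rfl⟩
  have htp : ∀ X, Set.InjOn tp (QQ (a : K) (b : K) X) := by
    intro X P hP Q hQ h
    obtain ⟨x, y, h1, rfl⟩ := hne X P hP
    obtain ⟨x', y', h2, rfl⟩ := hne X Q hQ
    have h3 : (x, y) = (x', y') := h
    rw [Prod.mk.injEq] at h3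
    exact spt_ext h3.1 h3.2
  -- the field of a quadratic point
  have hnr : ∀ (L : Type) [Field L] [Algebra K L] (x y : L), IsQuadratic K a b L x y →
      ¬ (x ∈ Set.range (algebraMap K L) ∧ y ∈ Set.range (algebraMap K L)) := by
    rintro L _ _ x y hq ⟨⟨x1, hx1⟩, ⟨y1, hy1⟩⟩
    have h1 : IntermediateField.adjoin K {x, y} = ⊥ := by
      rw [IntermediateField.adjoin_eq_bot_iff]
      rintro z hz
      rw [Set.mem_insert_iff, Set.mem_singleton_iff] at hz
      rw [SetLike.mem_coe, IntermediateField.mem_bot]
      rcases hz with rfl | rfl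
      · exact ⟨x1, hx1⟩
      · exact ⟨y1, hy1⟩
    have h2 := hq.degree
    rw [h1, IntermediateField.finrank_bot] at h2
    norm_num at h2
  have hqd : ∀ (L : Type) [Field L] [NumberField L] [Algebra K L] (x y : L), finrank K L = 2 →
      y ^ 2 = x ^ 3 + algebraMap K L a * x + algebraMap K L b →
      ¬ (x ∈ Set.range (algebraMap K L) ∧ y ∈ Set.range (algebraMap K L)) →
      IsQuadratic K a b L x y := by
    intro L _ _ _ x y hL he hr
    refine ⟨he, ?_⟩
    have hf : FiniteDimensional K L := FiniteDimensional.right ℚ K L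
    have h1 := finrank_mul_finrank K (IntermediateField.adjoin K {x, y}) L
    rw [hL] at h1
    have h2 : finrank K (IntermediateField.adjoin K {x, y}) ∣ 2 := ⟨_, h1.symm⟩
    rcases (Nat.dvd_prime Nat.prime_two).1 h2 with h3 | h3
    · exfalso
      apply hr
      rw [IntermediateField.finrank_eq_one_iff, IntermediateField.adjoin_eq_bot_iff] at h3
      exact ⟨IntermediateField.mem_bot.1 (h3 (Set.mem_insert _ _)),
        IntermediateField.mem_bot.1 (h3 (Set.mem_insert_of_mem _ rfl))⟩
    · exact h3
  have hnL : ∀ (L : Type) [Field L] [NumberField L] [Algebra K L], finrank K L = 2 →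
      (finrank ℚ L : ℝ) = 2 * d := by
    intro L _ _ _ hL
    rw [hd, ← finrank_mul_finrank ℚ K L, hL]
    push_cast
    ring
  have hpts : ∀ X, points K a b X = tp '' QQ (a : K) (b : K) (2 * d * X) := by
    intro X
    ext p
    constructor
    · rintro ⟨L, _, _, _, ι, x, y, hL, hq, hx, rfl⟩
      have hns : (sw (algebraMap K L (a : K)) (algebraMap K L (b : K))).toAffine.Nonsingular x y :=
        sw_nonsing (hD L) hq.equation
      obtain ⟨σ, hσ⟩ := exists_conj hL
      obtain ⟨s, hs⟩ := exists_trace hab hσ (Affine.Point.some x y hns : EP (a : K) (b : K) L)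
      refine ⟨mp (a : K) (b : K) ι (Affine.Point.some x y hns),
        ⟨s, L, _, ‹_›, _, ι, σ, _, ⟨hσ, ?_, hs⟩, ?_, rfl⟩, ?_⟩
      · rw [mp_some]
        intro h1
        rw [Affine.Point.some.injEq] at h1
        exact hnr L x y hq ⟨(hσ.fix x).1 h1.1, (hσ.fix y).1 h1.2⟩
      · rw [Pool.Agent.U47.QE.sht_some]
        have h1 : logHeight₁ x / (finrank ℚ L : ℝ) ≤ X := hx
        rw [hnL L hL, div_le_iff₀ (by linarith)] at h1
        linarith
      · rw [mp_some]
    · rintro ⟨P, ⟨s, L, _, _, _, ι, σ, P', h1, h2, h3⟩, rfl⟩
      match P', h1, h2, h3 with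
      | 0, h1, _, _ =>
        exfalso
        apply h1.ne
        rw [map_zero]
      | .some x y h, h1, h2, h3 =>
        refine ⟨L, _, ‹_›, _, ι, x, y, h1.cj.deg, hqd L x y h1.cj.deg (eqL h) ?_, ?_, ?_⟩
        · rintro ⟨hx, hy⟩
          apply h1.ne
          rw [mp_some]
          exact spt_ext ((h1.cj.fix x).2 hx) ((h1.cj.fix y).2 hy)
        · rw [Pool.Agent.U47.QE.sht_some] at h2
          change logHeight₁ x / (finrank ℚ L : ℝ) ≤ X
          rw [hnL L h1.cj.deg, div_le_iff₀ (by linarith)]
          linarith
        · rw [← h3, mp_some]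
  have hcard : ∀ X, (points K a b X).ncard = (QQ (a : K) (b : K) (2 * d * X)).ncard := by
    intro X
    rw [hpts, (htp _).ncard_image]
  have hlarge : ∀ Y X : ℝ, max 0 Y ≤ X → Y ≤ 2 * d * X := by
    intro Y X h
    have h1 := (le_max_left _ _).trans h
    have h2 := (le_max_right _ _).trans h
    nlinarith
  have hE' : ∀ (L : Type) [Field L] [NumberField L] [Algebra K L]
      (ι : L →ₐ[K] AlgebraicClosure K) (x z : L)
      (hns : (sw (algebraMap K L (a : K)) (algebraMap K L (b : K))).toAffine.Nonsingular x z),
      (ι x, ι z) ∉ {q | ∃ h, (Affine.Point.some q.1 q.2 h :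
        EP (a : K) (b : K) (AlgebraicClosure K)) ∈ E} →
      mp (a : K) (b : K) ι (Affine.Point.some x z hns) ∉ E1 ∧
      mp (a : K) (b : K) ι (Affine.Point.some x z hns) ∉ E2 := by
    intro L _ _ _ ι x z hns hexc
    rw [mp_some]
    constructor
    · intro h
      exact hexc ⟨_, by rw [hE]; exact Or.inl h⟩
    · intro h
      exact hexc ⟨_, by rw [hE]; exact Or.inr h⟩
  have hg4 : ∀ g : Matrix (Fin 2) (Fin 2) K, g.det ≠ 0 →
      (![g 0 0, g 0 1, g 1 0, g 1 1] : Fin 4 → K) 0 * ![g 0 0, g 0 1, g 1 0, g 1 1] 3 -
        ![g 0 0, g 0 1, g 1 0, g 1 1] 1 * ![g 0 0, g 0 1, g 1 0, g 1 1] 2 ≠ 0 := by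
    intro g hg
    rw [Matrix.det_fin_two] at hg
    exact hg
  refine ⟨{q | ∃ h, (Affine.Point.some q.1 q.2 h : EP (a : K) (b : K) (AlgebraicClosure K)) ∈ E},
    ⟨c, C, max 0 X₀, hc, fun X hX => ⟨?_, ?_, ?_⟩⟩, ?_, ?_⟩
  · rw [hpts]
    exact (hfin _).1.image _
  · rw [hcard, ← hd]
    exact hlow _ (hlarge _ _ hX)
  · rw [hcard, ← hd]
    exact (hfin _).2
  · intro δ hδ
    obtain ⟨X₁, hX₁⟩ := hEn (δ * c) (by positivity)
    refine ⟨max (max 0 X₀) (max 0 X₁), fun X hX => ?_⟩
    have h1 := hX₁ (2 * d * X) (hlarge _ _ ((le_max_right _ _).trans hX))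
    have h2 := hlow (2 * d * X) (hlarge _ _ ((le_max_left _ _).trans hX))
    have h3 : ({q | ∃ h, (Affine.Point.some q.1 q.2 h : EP (a : K) (b : K) (AlgebraicClosure K)) ∈ E}
        ∩ points K a b X).ncard ≤ (E ∩ QQ (a : K) (b : K) (2 * d * X)).ncard := by
      rw [← ((htp (2 * d * X)).mono Set.inter_subset_right).ncard_image]
      refine Set.ncard_le_ncard ?_ (((hfin _).1.subset Set.inter_subset_right).image _)
      rintro q ⟨⟨h, hq⟩, hq2⟩
      rw [hpts] at hq2
      obtain ⟨P, hP, hPq⟩ := hq2
      obtain ⟨x, y, h', rfl⟩ := hne _ P hP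
      have h4 : (x, y) = q := hPq
      subst h4
      exact ⟨_, ⟨hq, hP⟩, rfl⟩
    have h4 : (({q | ∃ h, (Affine.Point.some q.1 q.2 h : EP (a : K) (b : K) (AlgebraicClosure K))
        ∈ E} ∩ points K a b X).ncard : ℝ) ≤ ((E ∩ QQ (a : K) (b : K) (2 * d * X)).ncard : ℝ) := by
      exact_mod_cast h3
    rw [hcard]
    have h5 := mul_le_mul_of_nonneg_left h2 hδ.le
    linarith
  · intro k _ _ _ g hg A _ _ _ _ _ _ _ n β u y hy S hS
    -- the proximity function
    have hprox : ∀ κ : ℝ, 0 < κ → ∃ c : ℝ, ∀ (L : Type) [Field L] [NumberField L] [Algebra K L]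
        [Algebra k L] [IsScalarTower K k L] (ι : L →ₐ[K] AlgebraicClosure K) (x z : L),
        IsQuadratic K a b L x z → (ι x, ι z) ∉ {q | ∃ h, (Affine.Point.some q.1 q.2 h :
          EP (a : K) (b : K) (AlgebraicClosure K)) ∈ E} →
        algebraMap K L (g 1 0) * x + algebraMap K L (g 1 1) ≠ 0 →
        ∀ P : A →ₐ[k] L,
          P (coord k A) = (algebraMap K L (g 0 0) * x + algebraMap K L (g 0 1)) /
            (algebraMap K L (g 1 0) * x + algebraMap K L (g 1 1)) →
          (∀ j, P (coord k A) ≠ algebraMap k L (β j)) →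
          proximity S y P ≤ κ * height (P (coord k A)) + c := by
      intro κ hκ
      have hcj : ∀ j, ∃ c : ℝ, 0 ≤ c ∧
          ∀ (L : Type) [Field L] [NumberField L] [Algebra K L] [Algebra k L]
          [IsScalarTower K k L] (t : L) (ι : L →ₐ[K] AlgebraicClosure K) (x z : L)
          (h : (sw (algebraMap K L (a : K)) (algebraMap K L (b : K))).toAffine.Nonsingular x z),
          finrank K (IntermediateField.adjoin K {x, z}) = 2 →
          mp (a : K) (b : K) ι (Affine.Point.some x z h) ∉ E2 →
          algebraMap K L (![g 0 0, g 0 1, g 1 0, g 1 1] 2) * x +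
            algebraMap K L (![g 0 0, g 0 1, g 1 0, g 1 1] 3) ≠ 0 →
          t * (algebraMap K L (![g 0 0, g 0 1, g 1 0, g 1 1] 2) * x +
            algebraMap K L (![g 0 0, g 0 1, g 1 0, g 1 1] 3)) =
            algebraMap K L (![g 0 0, g 0 1, g 1 0, g 1 1] 0) * x +
              algebraMap K L (![g 0 0, g 0 1, g 1 0, g 1 1] 1) →
          t ≠ algebraMap k L (β j) →
          PS S (fun v : AbsoluteValue L ℝ =>
            max 0 (-Real.log (v (t - algebraMap k L (β j))))) ≤
            κ / (n + 1) * logHeight₁ t + Module.finrank ℚ L * c := fun j =>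
        hE4 k ![g 0 0, g 0 1, g 1 0, g 1 1] (hg4 g hg) (β j) S hS (κ / (n + 1)) (by positivity)
      choose cj hcj0 hcj using hcj
      refine ⟨∑ j, cj j, ?_⟩
      intro L _ _ _ _ _ ι x z hQ hexc hden P hP hPβ
      have hns : (sw (algebraMap K L (a : K)) (algebraMap K L (b : K))).toAffine.Nonsingular x z :=
        sw_nonsing (hD L) hQ.equation
      have h1 := proximity_le S hS y β hy P hPβ
      have hn : (0 : ℝ) < finrank ℚ L := by
        exact_mod_cast (finrank_pos : 0 < finrank ℚ L)
      have h2 : ∑ j, PS S (fun v : AbsoluteValue L ℝ =>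
          max 0 (-Real.log (v (P (coord k A) - algebraMap k L (β j))))) ≤
          ∑ j, (κ / (n + 1) * logHeight₁ (P (coord k A)) + Module.finrank ℚ L * cj j) := by
        refine Finset.sum_le_sum fun j _ => ?_
        exact hcj j L (P (coord k A)) ι x z hns hQ.degree (hE' L ι x z hns hexc).2 hden (by
          change P (coord k A) * (algebraMap K L (g 1 0) * x + algebraMap K L (g 1 1)) =
            algebraMap K L (g 0 0) * x + algebraMap K L (g 0 1)
          rw [hP, div_mul_cancel₀ _ hden]) (hPβ j)
      rw [Finset.sum_add_distrib, Finset.sum_const, Finset.card_univ, Fintype.card_fin,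
        nsmul_eq_mul, ← Finset.mul_sum] at h2
      have h3 : (n : ℝ) * (κ / (n + 1) * logHeight₁ (P (coord k A))) ≤
          κ * logHeight₁ (P (coord k A)) := by
        have h4 : (n : ℝ) * (κ / (n + 1) * logHeight₁ (P (coord k A))) =
            (n / (n + 1)) * (κ * logHeight₁ (P (coord k A))) := by ring
        rw [h4]
        have h5 : (n : ℝ) / (n + 1) ≤ 1 := by
          rw [div_le_one (by positivity)]
          linarith
        have h6 : 0 ≤ κ * logHeight₁ (P (coord k A)) :=
          mul_nonneg hκ.le (zero_le_logHeight₁ _)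
        exact mul_le_of_le_one_left h6 h5
      have h4 : proximity S y P * finrank ℚ L ≤
          (κ * height (P (coord k A)) + ∑ j, cj j) * finrank ℚ L := by
        unfold height
        rw [add_mul, mul_assoc, div_mul_cancel₀ _ hn.ne']
        linarith
      exact le_of_mul_le_mul_right h4 hn
    intro κ hκ
    refine ⟨hprox κ hκ, ?_⟩
    intro q α hq hα hsml
    obtain ⟨c1, hc1⟩ := hprox (κ / 2) (by positivity)
    obtain ⟨c2, hc2⟩ := hE3 k ![g 0 0, g 0 1, g 1 0, g 1 1] (hg4 g hg) q α hq hα
      (fun ι j => hsml j ι) A (κ / 2) (by positivity)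
    refine ⟨c1 + c2, ?_⟩
    intro L _ _ _ _ _ ι x z hQ hexc hden P hP hPβ
    have hns : (sw (algebraMap K L (a : K)) (algebraMap K L (b : K))).toAffine.Nonsingular x z :=
      sw_nonsing (hD L) hQ.equation
    have h0 := hc1 L ι x z hQ hexc hden P hP hPβ
    have h1 := hc2 L P ι x z hns hQ.degree (hE' L ι x z hns hexc).1 hden (by
      change P (coord k A) * (algebraMap K L (g 1 0) * x + algebraMap K L (g 1 1)) =
        algebraMap K L (g 0 0) * x + algebraMap K L (g 0 1)
      rw [hP, div_mul_cancel₀ _ hden])
    have hdeg : degree k A α = (q : ℝ) - (∑ j, (finrank k (A ⧸ fib k A (α j)) : ℝ)) /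
        finrank k[X] A := by
      unfold degree
      rw [Finset.sum_sub_distrib, Finset.sum_const, Finset.card_univ, Fintype.card_fin,
        nsmul_eq_mul, mul_one, Finset.sum_div]
      rfl
    rw [← hdeg] at h1
    have hn : (0 : ℝ) < finrank ℚ L := by
      exact_mod_cast (finrank_pos : 0 < finrank ℚ L)
    have h4 : ((degree k A α - κ / 2) * logHeight₁ (P (coord k A))) / finrank ℚ L ≤
        (Real.log |(discr L : ℝ)| + finrank ℚ L * c2) / finrank ℚ L :=
      div_le_div_of_nonneg_right h1 hn.le
    rw [add_div, mul_div_cancel_left₀ _ hn.ne', mul_div_assoc] at h4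
    have h5 : height (P (coord k A)) = logHeight₁ (P (coord k A)) / finrank ℚ L := rfl
    have h6 : logDisc L = Real.log |(discr L : ℝ)| / finrank ℚ L := rfl
    rw [← h5, ← h6] at h4
    linarith

end Pool.Agent.Results.MP_6f1c57_nt.CurvesAboveEllipticCurves
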