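import Pool.Agent.U405.RS.F
import Pool.Agent.U405.RS.F2
import Pool.Agent.Results.MP_6f1c57_nt.ProximityWindows

/-!
# The height inequality for points of bounded degree on curves: heights near values of `f` at thin sets of arguments

Let `f` be a positive multiplicative function of at most polynomial growth which for each `a ≥ 1` is injective at the powers
`p ^ a` of the large primes and at most `M p ^ a` there; for example Euler's function or the sum of the divisors. Let `α > 0`, `d ≥ 1`, `σ ≥ 0` and `e = d max(exponent, 0) / (r + 1) + σ`, the exponent as in the theorem. The height inequality of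
the question (with the truncated counting function and the discriminant, for EVERY curve over the line and EVERY divisor above
`q ≥ 3` rational points) holds for ALL algebraic numbers `x` of degree `r ≥ 2` with height `H`,
`|H ^ (r (r + 1)) - α f(v)^d| ≤ f(v)^σ`, ALL points of the curve above `x` and ALL finite sets of primes, for almost all `v`
(with a saving of any power of the logarithm) in each of these sets:

* the values of any integer polynomial without repeated roots, of degree `< 1 / e`;
* the shifted primes `p + a`, `a` any integer, if `e < 1`;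
* the intervals `(x, x + y]`, `x^τ ≤ y ≤ x`, for every `τ > e`, `τ ≤ 1`.

Proof. Own tool `Pool.Agent.U405.RS`: let `S` be a set of at least `N^(θ + δ)` integers up to `N` with at most
`B g^ω(k) |S| / k` multiples of `k` for every `k ≤ N^δ`, and let `W` have at most `C X^θ` elements up to `X`. Then `f(m) ∈ W` for at
most `|S| / (log N)^U` of the `m` in `S`. For this write `m = k w` with `k` composed of the primes `≤ z = N^(1 / J)`, `J` a small
multiple of `log log N`. By Rankin's method with the weights `g^ω(k)` one has `k ≤ N^η` for most `m`; and `w` has at most `J`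
prime factors and exponents `≤ J`, so that `w` is determined by `f(w)` up to `(J τ(f(w)) + 1)^J = N^o(1)` possibilities. The three
kinds of sets satisfy the hypothesis: for polynomials because `P` has at most `g` zeros modulo every prime power (lifting of
zeros by the identity `U P + V P' = R`), for shifted primes by the Brun-Titchmarsh inequality (library). The exceptional
algebraic numbers are counted by the starting theorems `ProximityAllCurves` and `ProximityWindows` of this problem.
-/

set_option autoImplicit false

namespace Pool.Agent.Results.MP_6f1c57_nt.SparseArguments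

open Polynomial IsDedekindDomain NumberField
open ProximityAllCurves (height coord proximity logDisc degree alpha exponent exceptional)
open ProximityWindows (Val Bad)
open Pool.Agent.N733.TG (Expanding expanding_pow)
open Pool.Agent.U405.RS (PM Sparse sparse_set' examples)

/-- the inequality of the question, for all points `P = φ` above `x` (a root of `g`), with the constant `-C₀` -/
def Holds {A : Type} [CommRing A] [Algebra ℚ A] [Algebra ℚ[X] A] {q : ℕ} (u : Fin q → ℕ)
    (y : ∀ j, Fin (u j + 1) → A) (κ C₀ : ℝ) (g : ℤ[X]) (x : ℂ) : Prop :=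
  ∀ (L : IntermediateField ℚ ℂ) [NumberField L] (φ : A →+* L) (S : Finset ℕ),
    (φ (coord A) : ℂ) = x → (∀ p ∈ S, p.Prime) →
    proximity S u y L φ + (degree u y - κ) * height g ≤ logDisc L + ∑ p ∈ S, Real.log p - C₀

/-- the inequality, with the constant `-C₀`, for ALL algebraic numbers `x` of degree `r` (with irreducible integral polynomial
`g` and height `H = exp (height g)`) with `|H ^ (r (r + 1)) - G v| ≤ v ^ σ` and all points above `x` -/
def Clear {A : Type} [CommRing A] [Algebra ℚ A] [Algebra ℚ[X] A] {q : ℕ} (r : ℕ) (u : Fin q → ℕ)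
    (y : ∀ j, Fin (u j + 1) → A) (κ C₀ : ℝ) (G : ℕ → ℝ) (σ : ℝ) (v : ℕ) : Prop :=
  ∀ (x : ℂ) (g : ℤ[X]), Irreducible g → g.natDegree = r → aeval x g = 0 →
    |Real.exp (height g) ^ (r * (r + 1)) - G v| ≤ (v : ℝ) ^ σ → Holds u y κ C₀ g x

/-- **Theorem.** For `η > 0` there is `c ≥ 1` such that the following holds. Let `A` be a Dedekind domain, finite over
`ℚ[t]` and containing it, let `r ≥ 2`, let `a_1, …, a_q` be `q ≥ 3` distinct rational numbers, let
`y_{j 0} = t - a_j, y_{j 1}, …` be elements of the radical of the ideal `(t - a_j)` and `κ ≤ q`. (For `κ ≥ 0` the exponent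
`exponent (alpha r c η) r q κ` is smaller than `r + 1`.) Let `f` be in the class `PM`, let `G` have steps `≥ const > 0` and growth
at most `v ^ d`, `σ ≥ 0`, `C₀` real and `U` any. The property that the inequality holds for ALL algebraic numbers `x` of degree
`r` with height `H`, `|H ^ (r (r + 1)) - G v| ≤ v ^ σ`, ALL points of the curve above `x` over any number field and ALL finite sets
of primes holds in the sense `Sparse e f`, `e = d max(exponent, 0) / (r + 1) + σ`. (`Sparse e f`: with a saving of `(log x)^U` it holds at `f v` for almost all `v` among the positive values of every integer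
polynomial without repeated roots of degree `< 1 / e`; among the shifted primes `p + a` for every `a`, if `e < 1`; and in all
intervals `(x, x + y]`, `x^τ ≤ y ≤ x`, `e < τ ≤ 1`.) Euler's function and the sum of the divisors are in the class `PM`, and
`α v^d` with `α > 0`, `d ≥ 1` is an example of `G`. -/
theorem result :
    (∀ η : ℝ, 0 < η → ∃ c : ℝ, 1 ≤ c ∧
      ∀ (A : Type) [CommRing A] [IsDedekindDomain A] [Algebra ℚ A] [Algebra ℚ[X] A]
        [IsScalarTower ℚ ℚ[X] A] [Module.Finite ℚ[X] A] [FaithfulSMul ℚ[X] A]
        (r q : ℕ), 2 ≤ r → 3 ≤ q → ∀ a : Fin q → ℚ, Function.Injective a →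
      ∀ (u : Fin q → ℕ) (y : ∀ j, Fin (u j + 1) → A),
      (∀ j, y j 0 = coord A - algebraMap ℚ[X] A (C (a j))) →
      (∀ j i, y j i ∈ (Ideal.span {coord A - algebraMap ℚ[X] A (C (a j))}).radical) →
      ∀ κ : ℝ, κ ≤ q →
      (0 ≤ κ → exponent (alpha r c η) r q κ < r + 1) ∧
      ∀ f : ℕ → ℕ, PM f → ∀ (G : ℕ → ℝ) (d : ℝ), Expanding G d → ∀ σ : ℝ, 0 ≤ σ → ∀ (C₀ : ℝ) (U : ℕ),
        Sparse (d * (max (exponent (alpha r c η) r q κ) 0 / (r + 1)) + σ) f (Clear r u y κ C₀ G σ) U) ∧
    (PM Nat.totient ∧ PM (fun m => ∑ d ∈ m.divisors, d) ∧ PM (fun m => m)) ∧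
    ∀ α d : ℝ, 0 < α → 1 ≤ d → Expanding (fun v => α * (v : ℝ) ^ d) d := by
  refine ⟨fun η hη => ?_, examples, fun α d hα hd => expanding_pow hα hd⟩
  obtain ⟨c, hc, hmain⟩ := ProximityAllCurves.result η hη
  refine ⟨c, hc, fun A _ _ _ _ _ _ _ r q hr hq a ha u y hy0 hy κ hκ =>
    ⟨fun h0 => ProximityWindows.expo_lt hr hq hc h0, fun f hf G d hG σ hσ C₀ U => ?_⟩⟩
  refine sparse_set' (Val u y r κ (-C₀)) (fun z => z) hf hG
    (s := max (exponent (alpha r c η) r q κ) 0 / (r + 1)) (κ := σ)
    (div_nonneg (le_max_right _ _) (by positivity)) hσ rfl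
    (fun ε hε => ProximityWindows.count u y hr κ (-C₀) _
      (fun δ hδ => hmain A r q hr hq a ha u y hy0 hy κ (-C₀) δ hκ hδ) ε hε) _ U (fun v hv x g hg hgr hgx hw => ?_)
  by_contra h4
  unfold Holds at h4
  push Not at h4
  obtain ⟨L, hL, φ, S, hφ, hS, hlt⟩ := h4
  refine hv _ ⟨g, x, ⟨hg, hgr, hgx, L, hL, φ, S, hφ, hS, ?_⟩, rfl⟩ hw
  linarith

end Pool.Agent.Results.MP_6f1c57_nt.SparseArguments
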